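import Mathlib

set_option autoImplicit false

namespace Pool.Agent.KS6_47.KMF

universe u v

open Topology Filter MeasureTheory

def Bdd {G : Type u} (f : G → ℝ) : Prop := ∃ C : ℝ, ∀ x, |f x| ≤ C

/-- a mean: positive normalised linear functional on the bounded real functions -/
def IsMean {G : Type u} (M : (G → ℝ) → ℝ) : Prop :=
  (∀ f g, Bdd f → Bdd g → M (f + g) = M f + M g) ∧ (∀ (c : ℝ) f, Bdd f → M (c • f) = c * M f) ∧
    (∀ f, Bdd f → (∀ x, 0 ≤ f x) → 0 ≤ M f) ∧ M 1 = 1

def IsInv {G : Type u} [CommGroup G] (M : (G → ℝ) → ℝ) : Prop :=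
  ∀ f g, Bdd f → M (fun x => f (x * g)) = M f

/-- upper Banach density -/
noncomputable def dstar {G : Type u} [CommGroup G] (A : Set G) : ℝ :=
  sSup {t | ∃ M : (G → ℝ) → ℝ, IsMean M ∧ IsInv M ∧ t = M (A.indicator 1)}

def Bohr {G : Type u} [CommGroup G] [TopologicalSpace G] (l : Finset (PontryaginDual G)) (ε : ℝ) :
    Set G := {g | ∀ χ ∈ l, ‖((χ g : Circle) : ℂ) - 1‖ < ε}

/-- Fourier transform of a measure on the dual group -/
noncomputable def hat {G : Type u} [CommGroup G] [TopologicalSpace G]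
    [MeasurableSpace (PontryaginDual G)] (μ : Measure (PontryaginDual G)) (g : G) : ℂ :=
  ∫ χ, (starRingEnd ℂ) ((χ g : Circle) : ℂ) ∂μ

lemma IsMean.mono {G : Type u} {M : (G → ℝ) → ℝ} (h : IsMean M) {f g : G → ℝ} (hf : Bdd f)
    (hg : Bdd g) (hfg : ∀ x, f x ≤ g x) : M f ≤ M g := by
  have hb : Bdd (g - f) := by
    obtain ⟨C, hC⟩ := hf
    obtain ⟨D, hD⟩ := hg
    exact ⟨D + C, fun x => (abs_sub _ _).trans (add_le_add (hD x) (hC x))⟩
  have h1 := h.1 f (g - f) hf hb
  rw [add_sub_cancel] at h1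
  have h2 := h.2.2.1 _ hb fun x => sub_nonneg.2 (hfg x)
  linarith

lemma bdd_const {G : Type u} (c : ℝ) : Bdd (fun _ : G => c) := ⟨|c|, fun _ => le_rfl⟩

lemma IsMean.const {G : Type u} {M : (G → ℝ) → ℝ} (h : IsMean M) (c : ℝ) : M (fun _ => c) = c := by
  have := h.2.1 c 1 (bdd_const 1)
  rw [h.2.2.2, mul_one] at this
  rw [← this]
  congr 1
  funext x
  simp [this]

lemma dini {Y : Type u} {ι : Type v} [TopologicalSpace Y] {C : Set Y} (hC : IsCompact C)
    (Φ : List ι → Y → ℝ) (hc : ∀ l, Continuous (Φ l))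
    (hm : ∀ l l' y, Φ (l ++ l') y ≤ Φ l y ∧ Φ (l ++ l') y ≤ Φ l' y) {η : ℝ}
    (h : ∀ y ∈ C, ∃ l, Φ l y < η) : ∃ l, ∀ y ∈ C, Φ l y < η := by
  obtain ⟨l, hl⟩ := hC.elim_directed_cover (fun l => {y | Φ l y < η})
    (fun l => isOpen_lt (hc l) continuous_const)
    (fun y hy => Set.mem_iUnion.2 (h y hy))
    (fun l l' => ⟨l ++ l', fun y hy => (hm l l' y).1.trans_lt hy,
      fun y hy => (hm l l' y).2.trans_lt hy⟩)
  exact ⟨l, fun y hy => hl hy⟩

section
variable {G : Type u} [CommGroup G] [TopologicalSpace G] [DiscreteTopology G]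

noncomputable def e (g : G) (p : PontryaginDual G × PontryaginDual G) : ℂ :=
  (starRingEnd ℂ) ((p.1 g : Circle) : ℂ) * ((p.2 g : Circle) : ℂ)

lemma ev_cont (g : G) : Continuous fun χ : PontryaginDual G => ((χ g : Circle) : ℂ) :=
  continuous_subtype_val.comp (continuous_eval_const (F := G →ₜ* Circle) g)

lemma e_cont (g : G) : Continuous (e g) :=
  (Complex.continuous_conj.comp ((ev_cont g).comp continuous_fst)).mul
    ((ev_cont g).comp continuous_snd)

lemma e_norm (g : G) (p : PontryaginDual G × PontryaginDual G) : ‖e g p‖ = 1 := by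
  simp [e]

lemma e_mul (g h : G) (p : PontryaginDual G × PontryaginDual G) :
    e (g * h) p = e g p * e h p := by
  simp only [e, map_mul, Circle.coe_mul]; ring

noncomputable def k : List G → PontryaginDual G × PontryaginDual G → ℂ
  | [], _ => 1
  | h :: l, p => (1 + e h p) / 2 * k l p

lemma k_cont (l : List G) : Continuous (k l) := by
  induction l with
  | nil => exact continuous_const
  | cons h l ih => exact ((continuous_const.add (e_cont h)).div_const 2).mul ih

lemma half_le (h : G) (p : PontryaginDual G × PontryaginDual G) : ‖(1 + e h p) / 2‖ ≤ 1 := by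
  have := norm_add_le (1 : ℂ) (e h p)
  rw [norm_one, e_norm] at this
  rw [norm_div, Complex.norm_two]
  linarith

lemma k_le (l : List G) (p : PontryaginDual G × PontryaginDual G) : ‖k l p‖ ≤ 1 := by
  induction l with
  | nil => simp [k]
  | cons h l ih =>
    rw [k, norm_mul]
    exact mul_le_one₀ (half_le h p) (norm_nonneg _) ih

lemma k_app (l l' : List G) (p : PontryaginDual G × PontryaginDual G) :
    k (l ++ l') p = k l p * k l' p := by
  induction l with
  | nil => simp [k]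
  | cons h l ih => rw [List.cons_append, k, k, ih, mul_assoc]

lemma k_mono (l l' : List G) (p : PontryaginDual G × PontryaginDual G) :
    ‖k (l ++ l') p‖ ≤ ‖k l p‖ ∧ ‖k (l ++ l') p‖ ≤ ‖k l' p‖ := by
  rw [k_app, norm_mul]
  exact ⟨mul_le_of_le_one_right (norm_nonneg _) (k_le _ _),
    mul_le_of_le_one_left (norm_nonneg _) (k_le _ _)⟩

lemma k_small {χ ψ : PontryaginDual G} (h : χ ≠ ψ) {η : ℝ} (hη : 0 < η) :
    ∃ l : List G, ‖k l (χ, ψ)‖ < η := by
  obtain ⟨g, hg⟩ : ∃ g, χ g ≠ ψ g := by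
    by_contra hc
    push Not at hc
    exact h (DFunLike.ext _ _ hc)
  have h1 : e g (χ, ψ) ≠ 1 := by
    intro h2
    apply hg
    have h3 : ((χ g : Circle) : ℂ) * e g (χ, ψ) = ((ψ g : Circle) : ℂ) := by
      simp only [e]
      rw [← mul_assoc, Complex.mul_conj, Circle.normSq_coe]; simp
    rw [h2, mul_one] at h3
    exact Subtype.ext h3
  have h2 : ‖(1 + e g (χ, ψ)) / 2‖ < 1 := by
    have h3 := parallelogram_law_with_norm ℝ (1 : ℂ) (e g (χ, ψ))
    rw [norm_one, e_norm] at h3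
    have h4 : 0 < ‖1 - e g (χ, ψ)‖ := norm_pos_iff.2 (sub_ne_zero.2 h1.symm)
    rw [norm_div, Complex.norm_two, div_lt_one (by norm_num)]
    nlinarith [norm_nonneg (1 + e g (χ, ψ))]
  obtain ⟨n, hn⟩ := exists_pow_lt_of_lt_one hη h2
  refine ⟨List.replicate n g, lt_of_eq_of_lt ?_ hn⟩
  clear hn
  induction n with
  | zero => simp [k]
  | succ n ih => rw [List.replicate_succ, k, norm_mul, ih, pow_succ']

instance : CompactSpace (PontryaginDual G) := inferInstanceAs (CompactSpace (G →ₜ* Circle))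

variable [MeasurableSpace (PontryaginDual G)] [BorelSpace (PontryaginDual G)]
  (μ : Measure (PontryaginDual G)) [IsFiniteMeasure μ]

lemma integ {f : PontryaginDual G → ℝ} (hf : Continuous f) : Integrable f μ :=
  hf.integrable_of_hasCompactSupport (HasCompactSupport.of_compactSpace f)

lemma I_cont (l : List G) : Continuous fun χ => ∫ ψ, ‖k l (χ, ψ)‖ ∂μ := by
  let F : C(PontryaginDual G × PontryaginDual G, ℝ) := ⟨fun p => ‖k l p‖, (k_cont l).norm⟩
  have h := (continuous_integral (μ := μ) (G := ℝ)).comp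
    ((ContinuousMap.toLp (E := ℝ) 1 μ ℝ).continuous.comp F.curry.continuous)
  refine h.congr fun χ => ?_
  exact integral_congr_ae (ContinuousMap.coeFn_toLp (𝕜 := ℝ) μ (F.curry χ))

lemma I_small [μ.OuterRegular] (hμ : ∀ χ, μ {χ} = 0) {ε : ℝ} (hε : 0 < ε) :
    ∃ l : List G, ∀ χ, ∫ ψ, ‖k l (χ, ψ)‖ ∂μ < ε * (2 + μ.real Set.univ) := by
  have hi : ∀ (l : List G) χ, Integrable (fun ψ => ‖k l (χ, ψ)‖) μ := fun l χ =>
    integ μ ((k_cont l).comp (Continuous.prodMk_right χ)).norm
  obtain ⟨l, hl⟩ := dini isCompact_univ (fun (l : List G) χ => ∫ ψ, ‖k l (χ, ψ)‖ ∂μ) (I_cont μ)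
    (fun l l' χ => ⟨integral_mono (hi _ _) (hi _ _) fun ψ => (k_mono l l' _).1,
      integral_mono (hi _ _) (hi _ _) fun ψ => (k_mono l l' _).2⟩)
    (η := ε * (2 + μ.real Set.univ)) (by
      intro χ _
      obtain ⟨V, hV1, hV2, hV3⟩ := Set.exists_isOpen_lt_of_lt (μ := μ) {χ} (ENNReal.ofReal ε)
        (by rw [hμ]; exact ENNReal.ofReal_pos.2 hε)
      obtain ⟨l, hl⟩ := dini hV2.isClosed_compl.isCompact (fun (l : List G) ψ => ‖k l (χ, ψ)‖)
        (fun l => ((k_cont l).comp (Continuous.prodMk_right χ)).norm)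
        (fun l l' ψ => k_mono l l' _) (η := ε)
        (fun ψ hψ => k_small (fun h => hψ (hV1 (by rw [← h]; rfl))) hε)
      refine ⟨l, ?_⟩
      have h1 : ∫ ψ, ‖k l (χ, ψ)‖ ∂μ ≤ ∫ ψ, (V.indicator (fun _ => (1 : ℝ)) ψ + ε) ∂μ := by
        refine integral_mono (hi _ _) (((integrable_const _).indicator hV2.measurableSet).add
          (integrable_const _)) fun ψ => ?_
        by_cases h : ψ ∈ V
        · simp only [Set.indicator_of_mem h]
          linarith [k_le l (χ, ψ)]
        · simp only [Set.indicator_of_notMem h]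
          linarith [hl ψ h]
      rw [integral_add ((integrable_const _).indicator hV2.measurableSet) (integrable_const _),
        integral_indicator_const _ hV2.measurableSet, integral_const, smul_eq_mul, smul_eq_mul,
        mul_one] at h1
      have h2 : μ.real V ≤ ε := ENNReal.toReal_le_of_le_ofReal hε.le hV3.le
      nlinarith)
  exact ⟨l, fun χ => hl χ trivial⟩

lemma e_meas (g : G) : Measurable (e g) :=
  ((Complex.continuous_conj.comp (ev_cont g)).measurable.comp measurable_fst).mul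
    ((ev_cont g).measurable.comp measurable_snd)

lemma k_meas (l : List G) : Measurable (k l) := by
  induction l with
  | nil => exact measurable_const
  | cons h l ih => exact ((measurable_const.add (e_meas h)).div_const 2).mul ih

lemma ek_int (l : List G) (g : G) : Integrable (fun p => e g p * k l p) (μ.prod μ) :=
  Integrable.of_bound ((e_meas g).mul (k_meas l)).aestronglyMeasurable 1
    (Eventually.of_forall fun p => by rw [norm_mul, e_norm, one_mul]; exact k_le l p)

noncomputable def R (l : List G) (g : G) : ℝ := (∫ p, e g p * k l p ∂(μ.prod μ)).re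

lemma R_le (l : List G) (g : G) : |R μ l g| ≤ ∫ χ, ∫ ψ, ‖k l (χ, ψ)‖ ∂μ ∂μ := by
  refine (Complex.abs_re_le_norm _).trans ((norm_integral_le_integral_norm _).trans_eq ?_)
  rw [integral_prod _ (ek_int μ l g).norm]
  simp only [norm_mul, e_norm, one_mul]

lemma R_cons (h : G) (l : List G) :
    R μ (h :: l) = (1 / 2 : ℝ) • (R μ l + fun g => R μ l (g * h)) := by
  funext g
  have : (fun p => e g p * k (h :: l) p) =
      fun p => (1 / 2 : ℝ) • (e g p * k l p + e (g * h) p * k l p) := by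
    funext p
    rw [k, e_mul, Complex.real_smul]; push_cast; ring
  simp only [R, Pi.smul_apply, Pi.add_apply, smul_eq_mul]
  rw [this, integral_smul, integral_add (ek_int μ l g) (ek_int μ l _), Complex.smul_re,
    Complex.add_re, smul_eq_mul]

lemma R_nil (g : G) : R μ [] g = ‖hat μ g‖ ^ 2 := by
  simp only [R, k, mul_one, e]
  rw [integral_prod_mul (fun χ : PontryaginDual G => (starRingEnd ℂ) ((χ g : Circle) : ℂ))
    (fun χ : PontryaginDual G => ((χ g : Circle) : ℂ)), hat, integral_conj, Complex.norm_conj,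
    Complex.conj_mul']
  norm_cast

lemma hat_bdd : Bdd fun g => ‖hat μ g‖ :=
  ⟨1 * μ.real Set.univ, fun g => by
    rw [abs_norm]
    exact norm_integral_le_of_norm_le_const (Eventually.of_forall fun χ => by simp)⟩

lemma wiener [μ.OuterRegular] (hμ : ∀ χ, μ {χ} = 0) {M : (G → ℝ) → ℝ} (hM : IsMean M)
    (hI : IsInv M) : M (fun g => ‖hat μ g‖) ≤ 0 := by
  have hb : ∀ l, Bdd (R μ l) := fun l => ⟨_, R_le μ l⟩
  have h1 : ∀ l, M (R μ l) = M (R μ []) := by
    intro l
    induction l with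
    | nil => rfl
    | cons h l ih =>
      have hb2 : Bdd fun g => R μ l (g * h) := ⟨_, fun g => R_le μ l _⟩
      have hb3 : Bdd (R μ l + fun g => R μ l (g * h)) :=
        ⟨_, fun g => (abs_add_le _ _).trans (add_le_add (R_le μ l _) (R_le μ l _))⟩
      rw [R_cons, hM.2.1 _ _ hb3, hM.1 _ _ (hb l) hb2, hI _ _ (hb l), ih]
      ring
  have h2 : M (R μ []) ≤ 0 := by
    have hc : 0 ≤ μ.real Set.univ := measureReal_nonneg
    refine le_of_forall_pos_le_add fun δ hδ => ?_
    obtain ⟨l, hl⟩ := I_small μ hμ (ε := δ / (2 + μ.real Set.univ) ^ 2) (by positivity)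
    have h3 : ∫ χ, ∫ ψ, ‖k l (χ, ψ)‖ ∂μ ∂μ ≤
        ∫ _χ, δ / (2 + μ.real Set.univ) ^ 2 * (2 + μ.real Set.univ) ∂μ :=
      integral_mono (integ μ (I_cont μ l)) (integrable_const _) fun χ => (hl χ).le
    rw [integral_const, smul_eq_mul] at h3
    have h4 : μ.real Set.univ * (δ / (2 + μ.real Set.univ) ^ 2 * (2 + μ.real Set.univ)) ≤ δ := by
      have e1 : μ.real Set.univ * (δ / (2 + μ.real Set.univ) ^ 2 * (2 + μ.real Set.univ)) =
          δ * (μ.real Set.univ / (2 + μ.real Set.univ)) := by field_simp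
      rw [e1]
      exact mul_le_of_le_one_right hδ.le ((div_le_one (by positivity)).2 (by linarith))
    rw [← h1 l, zero_add, ← hM.const δ]
    exact hM.mono (hb l) (bdd_const _) fun g =>
      (le_abs_self _).trans ((R_le μ l g).trans (h3.trans h4))
  refine le_of_forall_pos_le_add fun δ hδ => ?_
  have hb4 : Bdd (δ⁻¹ • R μ []) := by
    obtain ⟨C, hC⟩ := hb []
    exact ⟨|δ⁻¹| * C, fun g => by
      rw [Pi.smul_apply, smul_eq_mul, abs_mul]
      exact mul_le_mul_of_nonneg_left (hC g) (abs_nonneg _)⟩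
  have hb5 : Bdd (δ⁻¹ • R μ [] + fun _ => δ) := by
    obtain ⟨C, hC⟩ := hb4
    exact ⟨C + |δ|, fun g => (abs_add_le _ _).trans (add_le_add (hC g) le_rfl)⟩
  have h5 := hM.mono (hat_bdd μ) hb5 fun g => by
    rw [Pi.add_apply, Pi.smul_apply, smul_eq_mul, R_nil]
    have h6 : δ * δ⁻¹ = 1 := mul_inv_cancel₀ hδ.ne'
    have h7 : 0 < δ⁻¹ := inv_pos.2 hδ
    nlinarith [mul_nonneg h7.le (sq_nonneg (‖hat μ g‖ - δ)), norm_nonneg (hat μ g)]
  rw [hM.1 _ _ hb4 (bdd_const _), hM.2.1 _ _ (hb []), hM.const] at h5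
  nlinarith [inv_pos.2 hδ]

end

lemma bdd_ind {G : Type u} (A : Set G) {f : G → ℝ} (hf : Bdd f) : Bdd (A.indicator f) := by
  obtain ⟨C, hC⟩ := hf
  refine ⟨C, fun x => ?_⟩
  by_cases h : x ∈ A
  · rw [Set.indicator_of_mem h]; exact hC x
  · rw [Set.indicator_of_notMem h, abs_zero]; exact (abs_nonneg _).trans (hC x)

lemma cond_mean {G : Type u} {M : (G → ℝ) → ℝ} (h : IsMean M) {A : Set G}
    (hA : 0 < M (A.indicator 1)) : IsMean fun f => M (A.indicator f) / M (A.indicator 1) := by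
  refine ⟨fun f g hf hg => ?_, fun c f hf => ?_, fun f hf h0 => ?_, div_self hA.ne'⟩
  · have e1 : A.indicator (f + g) = A.indicator f + A.indicator g := by
      funext x; by_cases h : x ∈ A <;> simp [h]
    show M _ / _ = M _ / _ + M _ / _
    rw [e1, h.1 _ _ (bdd_ind A hf) (bdd_ind A hg), add_div]
  · have e1 : A.indicator (c • f) = c • A.indicator f := by
      funext x; by_cases h : x ∈ A <;> simp [h]
    show M _ / _ = c * (M _ / _)
    rw [e1, h.2.1 _ _ (bdd_ind A hf), mul_div_assoc]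
  · exact div_nonneg (h.2.2.1 _ (bdd_ind A hf) fun x => Set.indicator_nonneg (fun y _ => h0 y) x)
      hA.le

lemma lim_mean {G : Type u} {ι : Type v} (U : Ultrafilter ι) (N : ι → (G → ℝ) → ℝ) (hN : ∀ i, IsMean (N i)) :
    ∃ M, IsMean M ∧ ∀ f c, (∀ᶠ i in U, N i f = c) → M f = c := by
  have ht : ∀ f, Bdd f → Tendsto (fun i => N i f) U (𝓝 (limUnder U fun i => N i f)) := by
    intro f hf
    obtain ⟨C, hC⟩ := id hf
    obtain ⟨a, -, ha⟩ := (isCompact_Icc (a := -C) (b := C)).ultrafilter_le_nhds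
      (U.map fun i => N i f) (by
        rw [le_principal_iff, Ultrafilter.coe_map, mem_map]
        refine univ_mem' fun i => ⟨?_, ?_⟩
        · rw [← (hN i).const (-C)]
          exact (hN i).mono (bdd_const _) hf fun x => (abs_le.1 (hC x)).1
        · rw [← (hN i).const C]
          exact (hN i).mono hf (bdd_const _) fun x => (abs_le.1 (hC x)).2)
    exact tendsto_nhds_limUnder ⟨a, ha⟩
  have hc : ∀ f c, (∀ᶠ i in U, N i f = c) → (limUnder U fun i => N i f) = c := fun f c h =>
    (tendsto_const_nhds.congr' (h.mono fun i hi => hi.symm)).limUnder_eq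
  refine ⟨fun f => limUnder U fun i => N i f, ⟨fun f g hf hg => ?_, fun c f hf => ?_,
    fun f hf h0 => ?_, hc _ _ (Eventually.of_forall fun i => (hN i).2.2.2)⟩, hc⟩
  · exact (((ht f hf).add (ht g hg)).congr fun i => ((hN i).1 f g hf hg).symm).limUnder_eq
  · exact (((ht f hf).const_mul c).congr fun i => ((hN i).2.1 c f hf).symm).limUnder_eq
  · exact ge_of_tendsto' (ht f hf) fun i => (hN i).2.2.1 f hf h0


end Pool.Agent.KS6_47.KMF
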